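import Mathlib
import Pool.Agent.J4.H12.GeoGaps2

set_option autoImplicit false

/-!
# Multiples of the sums of consecutive prime gaps by monomials with polynomial exponents

Let `f(x) = log x (log₂ x)² log₄ x / (log₃ x)²`, the size of the largest gaps between consecutive
primes that are known to occur up to `x`.  Let `V` be a finite set of positive rational numbers and let
the `k`-tuples of integers be coloured with `ρ` colours.  For every `H` with `1 ≤ H ≤ c f(x)` there
are a positive integer `s ≤ S` and at least `x^(7/8)` clusters of `m + 1` consecutive primes up to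
`x` that follow a gap of size at least `c f(x)`, whose gaps `d_1, …, d_m` are between `H` and `C H`
and for which ALL the `k`-tuples

`u_1^s u_2^(s²) ⋯ u_D^(s^D) · (∑_(i ∈ F_1) d_i, …, ∑_(i ∈ F_k) d_i)`,

`u_1, …, u_D ∈ V`, `∅ ≠ F_1 < F_2 < … < F_k ⊆ {1, …, m}`, consist of integers and have the same
colour.  The constants `c`, `C`, `S` and `x₀` depend only on `D`, `V`, `k`, `m` and `ρ`.

For `V = {1}` this is the starting result `MP_ff81b6_nt.MillikenTaylorForGaps` (helper898).  For `k = 1`,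
`D = 1`, `V = {1, b, …, b^l}` all the numbers `b^(j s) d_F` (`0 ≤ j ≤ l`, `F` any nonempty set of gaps)
have the same colour: the sums of the record gaps together with geometric progressions.

Method.  The polynomial Hales-Jewett theorem of the starting library (`Pool.Agent.Y613.PJ`) is
applied to the colours of the dilations of a sequence of blocks which is homogeneous (Milliken-Taylor,
`Y898.MTC.mt_col`) for all the dilations at the same time; then the cluster is taken at the dilated
scale (`Y898.Engine2`, on the record sieve `TH101.RG.core` of helper101).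
-/

namespace Pool.Agent.Results.MP_b0c12c_nt.PowersTimesGapSums

/-- The record scale `f(x) = log x (log₂ x)² log₄ x / (log₃ x)²` (iterated natural logarithms). -/
noncomputable def f (x : ℝ) : ℝ :=
  Real.log x * (Real.log (Real.log x)) ^ 2 * Real.log (Real.log (Real.log (Real.log x))) /
    (Real.log (Real.log (Real.log x))) ^ 2

/-- The `i`-th prime, numbered from `p 0 = 2`. -/
noncomputable def p (i : ℕ) : ℕ := Nat.nth Nat.Prime i

/-- The gap after the `i`-th prime. -/
noncomputable def d (i : ℕ) : ℤ := (p (i + 1) : ℤ) - p i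

/-- The primes `p_n, …, p_(n+m)` are at most `x`, the `m` gaps between them are at least `H` and at
most `C H`, and the gap before `p_n` is at least `c f(x)`. -/
def Cluster (c C x H : ℝ) (m n : ℕ) : Prop :=
  0 < n ∧ (p (n + m) : ℝ) ≤ x ∧ c * f x ≤ (d (n - 1) : ℝ) ∧
    ∀ i < m, H ≤ (d (n + i) : ℝ) ∧ (d (n + i) : ℝ) ≤ C * H

theorem cluster_of {c C x H : ℝ} {k n : ℕ} {Q : (Fin k → ℤ) → Prop}
    (h : n ∈ Pool.Agent.Y898.PolyGaps.Cl c C x H k Q) :
    Cluster c C x H k n ∧ Q (fun l => d (n + l)) := by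
  obtain ⟨h1, h2, h3, h4, h5⟩ := h
  refine ⟨⟨h1, h2, ?_, fun i hi => ?_⟩, h5⟩
  · unfold d p
    rw [Nat.sub_add_cancel h1]
    push_cast
    exact h3
  · unfold d p
    push_cast
    exact h4 i hi

theorem finite_of {x : ℝ} {k : ℕ} {S : Set ℕ} (h : ∀ n ∈ S, (p (n + k) : ℝ) ≤ x) : S.Finite := by
  refine (Set.finite_Iic ⌊x⌋₊).subset ?_
  intro n hn
  refine Nat.le_floor (le_trans ?_ (h n hn))
  have h2 : n + k ≤ Nat.nth Nat.Prime (n + k) :=
    (Nat.nth_strictMono Nat.infinite_setOfPred_prime).le_apply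
  exact_mod_cast (Nat.le_add_right n k).trans h2

/-- **Multiples of sums of consecutive gaps next to a record gap.**  Let `D ≥ 1` and let `V` be a
finite set of positive rational numbers.  For all `k`, `m`, `ρ` there are `c > 0`, `C`, `S` and `x₀`
such that for all `x ≥ x₀`, all `H` with `1 ≤ H ≤ c f(x)` and every colouring `χ` of the `k`-tuples of
integers with `ρ` colours there is `s`, `1 ≤ s ≤ S`, and there are at least `x^(7/8)` blocks
`p_n, …, p_(n+m)` of consecutive primes up to `x`, with all `m` gaps between `H` and `C H` and the gap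
before `p_n` at least `c f(x)`, such that for some colour `col` and all `u_1, …, u_D` in `V` and all
nonempty sets `I_1 < … < I_k` of indices, the sums of the gaps over `I_1, …, I_k`, multiplied by
`u_1^s u_2^(s²) ⋯ u_D^(s^D)`, are integers which form a `k`-tuple of the colour `col`. -/
theorem result (D : ℕ) (hD : 1 ≤ D) (V : Finset ℚ) (hV : ∀ v ∈ V, 0 < v) (k m ρ : ℕ) :
    ∃ c C : ℝ, 0 < c ∧ ∃ (S : ℕ) (x₀ : ℝ), ∀ x : ℝ, x₀ ≤ x → ∀ H : ℝ, 1 ≤ H → H ≤ c * f x →
    ∀ χ : (Fin k → ℤ) → Fin ρ, ∃ s : ℕ, 1 ≤ s ∧ s ≤ S ∧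
    x ^ (7 / 8 : ℝ) ≤ (Set.ncard {n : ℕ | Cluster c C x H m n ∧
      ∃ col, ∀ u : Fin D → ℚ, (∀ i, u i ∈ V) → ∀ I : Fin k → Finset (Fin m),
        (∀ l, (I l).Nonempty) → (∀ l l', l < l' → ∀ i ∈ I l, ∀ j ∈ I l', i < j) →
        ∃ z : Fin k → ℤ, (∀ l, (z l : ℚ) =
          (∏ i, u i ^ (s ^ ((i : ℕ) + 1))) * ∑ i ∈ I l, (d (n + i) : ℚ)) ∧ χ z = col} : ℝ) := by
  obtain ⟨c, C, hc, -, S, h⟩ := Pool.Agent.J4.H12.GG.main D hD V hV k m ρ
  obtain ⟨x₀, hx₀⟩ := Filter.eventually_atTop.1 h
  refine ⟨c, C, hc, S, x₀, fun x hx H hH hHc χ => ?_⟩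
  obtain ⟨s, hs1, hs2, hs⟩ := hx₀ x hx H hH hHc χ
  refine ⟨s, hs1, hs2, hs.trans ?_⟩
  rw [Nat.cast_le]
  refine Set.ncard_le_ncard ?_ (finite_of (k := m) fun n hn => hn.1.2.1)
  intro n hn
  exact cluster_of hn

end Pool.Agent.Results.MP_b0c12c_nt.PowersTimesGapSums
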