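import Mathlib
import Pool.Agent.J4.H55.SQ.Final

set_option autoImplicit false

/-! # The limit of the square sieve for large gaps between primes

The best lower bounds for large gaps between primes find an integer `n` for which all the numbers
`n + h`, with `h` in a set `H` of shifts, have a small prime factor, by averaging over `n` with a
weight `V(n)²`, where `V` has level `R ≤ √X`.  We prove that no such weight can work for more than
`(e^{-γ} + o(1)) A log A` shifts, where `A = log R / log z` and `(z, R]` is the range of the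
sieving primes.  For `R = √X` and `z = (log X)^{1 + o(1)}` this is about `(e^{-γ} / 2) log X`. -/

open Finset

namespace Pool.Agent.Results.MP_b0c12c_nt.SquareSieveLimit

/-- The primes `p` with `z < p ≤ R`. -/
def PR (z R : ℕ) : Finset ℕ := (Finset.Ioc z R).filter Nat.Prime

/-- The product of the primes `p` with `z < p ≤ R`. -/
def PP (z R : ℕ) : ℕ := ∏ p ∈ PR z R, p

/-- `V` has level `R` (for the primes in `(z, R]`): it is a sum, over the divisors `d ≤ R` of the
product of these primes, of functions `g d` periodic modulo `d`. -/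
def HasLevel (z R : ℕ) (V : ℤ → ℝ) : Prop :=
  ∃ g : ℕ → ℤ → ℝ, (∀ d n, g d (n + d) = g d n) ∧
    ∀ n, V n = ∑ d ∈ (PP z R).divisors with d ≤ R, g d n

/-- **Limit of the square sieve.**  With `A = log R / log z`: if `H` is a set of at least
`(e^{-γ} + ε) A log A` shifts, pairwise incongruent modulo every prime in `(z, R]`, then every
square weight of level `R` gives many unsieved shifts on average. -/
theorem result : ∀ ε : ℝ, 0 < ε → ∃ c : ℝ, 0 < c ∧ ∃ C : ℝ, 0 < C ∧
    ∀ z R : ℕ, 2 ≤ z → z ≤ R →
      C ≤ Real.log R / Real.log z →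
      C * (Real.log R / Real.log z * Real.log (Real.log R / Real.log z)) ≤ z →
    ∀ H : Finset ℤ,
      (∀ p ∈ PR z R, ∀ h ∈ H, ∀ h' ∈ H, h ≠ h' → ¬ (p : ℤ) ∣ h - h') →
      (Real.exp (-Real.eulerMascheroniConstant) + ε) *
        (Real.log R / Real.log z * Real.log (Real.log R / Real.log z)) ≤ H.card →
    ∀ V : ℤ → ℝ, HasLevel z R V →
      c * (H.card / (Real.log R / Real.log z)) * ∑ n ∈ Finset.Ico (0:ℤ) (PP z R), (V n) ^ 2 ≤
      ∑ n ∈ Finset.Ico (0:ℤ) (PP z R), (V n) ^ 2 *
        ((H.filter (fun h => Int.gcd (n + h) (PP z R) = 1)).card : ℝ) :=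
  Pool.Agent.J4.H55.SQ.limit

end Pool.Agent.Results.MP_b0c12c_nt.SquareSieveLimit
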