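import Mathlib
import Pool.Agent.J4.H12.TaylorGaps

set_option autoImplicit false

/-!
# The canonical theorem of Taylor for consecutive prime gaps at every scale, next to a record gap

Let `f(x) = log x (log₂ x)² log₄ x / (log₃ x)²`, the size of the largest gaps between consecutive
primes that are known to occur up to `x`.  Let `g_1, …, g_L` be ARBITRARY functions on the integers
(with infinitely many values, that is colourings with infinitely many colours).  For every `H` with
`1 ≤ H ≤ c f(x)` there are many clusters of `m + 1` consecutive primes up to `x` that follow a gap of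
size at least `c f(x)`, whose gaps `d_1, …, d_m` are between `H` and `C H`, and on whose sums
`d_I = ∑_(i ∈ I) d_i` every `g_j` is canonical: `g_j(d_I) = g_j(d_J)` holds

* for all nonempty `I`, `J ⊆ {1, …, m}`, or
* exactly if `min I = min J`, or
* exactly if `max I = max J`, or
* exactly if `min I = min J` and `max I = max J`, or
* exactly if `I = J`.

The constants `c`, `C`, `x₀` depend only on `m` and `L`.

Method.  The Milliken-Taylor theorem for gaps of the starting file
`MP_ff81b6_nt.MillikenTaylorForGaps` is applied to the colouring of the `(m + 3)`-tuples of integers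
by the set of all the equalities between values of the `g_j` at subsums; the finite canonical theorem
is then derived inside such a cluster (`Pool.Agent.J4.H12.TaylorCanon`, `TaylorCanon2`).
-/

namespace Pool.Agent.Results.MP_b0c12c_nt.TaylorCanonicalGaps

open Finset

/-- The record scale `f(x) = log x (log₂ x)² log₄ x / (log₃ x)²` (iterated natural logarithms). -/
noncomputable def f (x : ℝ) : ℝ :=
  Real.log x * (Real.log (Real.log x)) ^ 2 * Real.log (Real.log (Real.log (Real.log x))) /
    (Real.log (Real.log (Real.log x))) ^ 2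

/-- The `i`-th prime, numbered from `p 0 = 2`. -/
noncomputable def p (i : ℕ) : ℕ := Nat.nth Nat.Prime i

/-- The gap after the `i`-th prime. -/
noncomputable def d (i : ℕ) : ℤ := (p (i + 1) : ℤ) - p i

/-- The primes `p_n, …, p_(n+k)` are at most `x`, the `k` gaps between them are at least `H` and at
most `C H`, and the gap before `p_n` is at least `c f(x)`. -/
def Cluster (c C x H : ℝ) (k n : ℕ) : Prop :=
  0 < n ∧ (p (n + k) : ℝ) ≤ x ∧ c * f x ≤ (d (n - 1) : ℝ) ∧
    ∀ i < k, H ≤ (d (n + i) : ℝ) ∧ (d (n + i) : ℝ) ≤ C * H

/-- The five canonical types. -/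
inductive Kind
  | const
  | least
  | greatest
  | both
  | whole

/-- Two sets agree with respect to a type: no condition, the same minimum, the same maximum, both, or
equality. -/
def Agree (K : Kind) (I J : Finset ℕ) : Prop :=
  match K with
  | Kind.const => True
  | Kind.least => I.min = J.min
  | Kind.greatest => I.max = J.max
  | Kind.both => I.min = J.min ∧ I.max = J.max
  | Kind.whole => I = J

/-- The type in the library file. -/
def ofTC : Pool.Agent.J4.H12.TC.Kind → Kind
  | .const => .const
  | .least => .least
  | .greatest => .greatest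
  | .both => .both
  | .whole => .whole

theorem agree_ofTC (K : Pool.Agent.J4.H12.TC.Kind) (I J : Finset ℕ) :
    Pool.Agent.J4.H12.TC.Agree K I J ↔ Agree (ofTC K) I J := by
  cases K <;> exact Iff.rfl

theorem finite_of {x : ℝ} {k : ℕ} {S : Set ℕ} (h : ∀ n ∈ S, (p (n + k) : ℝ) ≤ x) : S.Finite := by
  refine (Set.finite_Iic ⌊x⌋₊).subset ?_
  intro n hn
  refine Nat.le_floor (le_trans ?_ (h n hn))
  have h2 : n + k ≤ Nat.nth Nat.Prime (n + k) :=
    (Nat.nth_strictMono Nat.infinite_setOfPred_prime).le_apply
  exact_mod_cast (Nat.le_add_right n k).trans h2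

/-- **The canonical theorem of Taylor for consecutive prime gaps next to a record gap.**  For all `m`
and `L` there are `c > 0`, `C` and `x₀` such that for all `x ≥ x₀`, all `H` with `1 ≤ H ≤ c f(x)` and
arbitrary functions `g_1, …, g_L` on the integers there are types `K_1, …, K_L` among the five
canonical ones and at least `x^(7/8) / 5^L` blocks `p_n, …, p_(n+m)` of consecutive primes up to `x`,
with all `m` gaps between `H` and `C H` and the gap before `p_n` at least `c f(x)`, such that for
every `j` and all nonempty sets `I`, `J` of indices the sums of the gaps over `I` and over `J` have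
the same value under `g_j` if and only if `I` and `J` agree with respect to the type `K_j`. -/
theorem result (m L : ℕ) : ∃ c C : ℝ, 0 < c ∧
    ∃ x₀ : ℝ, ∀ x : ℝ, x₀ ≤ x → ∀ H : ℝ, 1 ≤ H → H ≤ c * f x →
    ∀ (S : Type) (g : Fin L → ℤ → S), ∃ K : Fin L → Kind,
    x ^ (7 / 8 : ℝ) / 5 ^ L ≤ (Set.ncard {n : ℕ | Cluster c C x H m n ∧
      ∀ j, ∀ I J : Finset ℕ, I ⊆ range m → J ⊆ range m → I.Nonempty → J.Nonempty →
        (g j (∑ i ∈ I, d (n + i)) = g j (∑ i ∈ J, d (n + i)) ↔ Agree (K j) I J)} : ℝ) := by
  obtain ⟨c, C, hc, -, x₀, h⟩ := Pool.Agent.J4.H12.TC.main m L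
  refine ⟨c, C, hc, x₀, fun x hx H hH hHc S g => ?_⟩
  obtain ⟨K, hK⟩ := h x hx H hH hHc S g
  refine ⟨fun j => ofTC (K j), ?_⟩
  rw [div_le_iff₀' (by positivity)]
  refine hK.trans (mul_le_mul_of_nonneg_left ?_ (by positivity))
  rw [Nat.cast_le]
  refine Set.ncard_le_ncard ?_ (finite_of (k := m) fun n hn => hn.1.2.1)
  rintro n ⟨h1, h2, h3, h4, h5⟩
  exact ⟨⟨h1, h2, h3, h4⟩, fun j I J hI hJ hIn hJn =>
    (h5 j I J hI hJ hIn hJn).trans (agree_ofTC (K j) I J)⟩

end Pool.Agent.Results.MP_b0c12c_nt.TaylorCanonicalGaps
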