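import Pool.Agent.J4.H53.WM.Fin

set_option autoImplicit false

/-!
# Record prime gaps at the entries of words in matrices over prime fields

Write `f(x) = log x (log₂ x)² log₄ x / (log₃ x)²` for the record size of the prime-free intervals.  An
integer `n` is a centre modulo `p` if every integer within `κ f(p)` of `n` has a prime factor `≤ p ^ ε`;
so a centre in `(p ^ ε + κ f(p), p)` is in the middle of a record prime gap.

(0) Criterion for families with a scaling.  Let `F_p^×` permute a finite family (one permutation for every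
scalar `t`), let `v_j` be functions on the family with values modulo `p`, of degrees `d_j ≠ 0` with
`|d_j| ≤ D` (`v_j(t x) = t ^ d_j v_j(x)`), and suppose that no nontrivial linear combination of functions `v_j` of
the same degree vanishes on more than the proportion `p ^ (-η)` of the family.  Then in every box with sides
`≥ p ^ (1 - δ)` all the coordinates of `T(v(x)) + C` are represented by centres for at least the
proportion `p ^ (-ε)` of the `x`, for every surjective affine map `T + C`.
(1) Words in matrices.  Let `w_1, …, w_r` be elements of the free group in `k` letters whose exponent vectors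
(images in `ℤ ^ k`) are different from each other and from zero; for example `x, x⁻¹, x², y, xy, yx⁻³`.
For at least the proportion `p ^ (-ε)` of the `k`-tuples `X` of invertible `n × n` matrices modulo `p` all the
entries of all the matrices `w_i(X)` are represented by centres in every box with sides `≥ p ^ (1 - δ)`; the
same for any `m` linearly independent linear forms in these entries, with arbitrary constants added.
(2) The same for the tuples in an arbitrary set `S` of at least `p ^ (k n² - 1 + ε)` tuples which is closed under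
multiplication of the single matrices by scalars.
(3) Forms on cones.  The same for the values of linearly independent forms `F_1, …, F_r` of positive degrees
`≤ D` in `N` variables at the points of an arbitrary set of at least `p ^ (N - 1 + ε)` points which is closed
under multiplication by nonzero scalars.

Proof: scaling leads to exponential sums with Laurent polynomials `∑_{0 < |k| ≤ D} c_k t ^ k` over `F_p^×`;
the `4 D`-th moment over all coefficients is bounded by Newton's identities for the positive and for the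
negative power sums, and the invariance of the sums under `c_k ↦ λ ^ k c_k` gives a saving `p ^ (-1/(4D))`
(Mordell's method).  The zeros are counted by the Schwartz-Zippel lemma with the adjugates in place of
the inverses.  The record gaps come from the criterion of the starting library for families of vectors with
small Fourier coefficients (`Pool.Agent.N825.FC.crit`).
-/

namespace Pool.Agent.Results.MP_b0c12c_nt.WordsInMatrices

open Finset

/-- The record scale `f(x) = log x (log₂ x)² log₄ x / (log₃ x)²` (iterated natural logarithms). -/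
noncomputable def f (x : ℝ) : ℝ :=
  Real.log x * (Real.log (Real.log x)) ^ 2 * Real.log (Real.log (Real.log (Real.log x))) /
    (Real.log (Real.log (Real.log x))) ^ 2

/-- Every integer within `κ f(p)` of `n` has a prime factor at most `p ^ ε`. -/
def Centre (κ ε : ℝ) (p : ℕ) (n : ℤ) : Prop :=
  ∀ t : ℤ, |(t : ℝ) - n| ≤ κ * f p → ∃ l : ℕ, l.Prime ∧ (l : ℝ) ≤ (p : ℝ) ^ ε ∧ (l : ℤ) ∣ t

/-- For every box `∏ (M_j, M_j + L]` with `p ^ (1 - δ) ≤ L ≤ p` at least `|s| p ^ (-ε)` of the vectors
`v_i`, `i ∈ s`, modulo `p` are represented by vectors of centres in the box. -/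
def ManyCentres (κ ε δ : ℝ) (p : ℕ) {ι : Type} {m : ℕ} (s : Finset ι) (v : ι → Fin m → ZMod p) :
    Prop :=
  ∀ (M : Fin m → ℤ) (L : ℕ), (p : ℝ) ^ (1 - δ) ≤ L → L ≤ p →
    ∃ g ⊆ s, s.card * (p : ℝ) ^ (-ε) ≤ g.card ∧
      ∀ i ∈ g, ∀ j, ∃ n : ℤ, M j < n ∧ n ≤ M j + L ∧ (n : ZMod p) = v i j ∧ Centre κ ε p n

/-- The exponent vector of an element of the free group: the `j`-th component is the sum of the exponents
of the letter `j`. -/
def exponents {k : ℕ} (w : FreeGroup (Fin k)) (j : Fin k) : ℤ :=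
  (FreeGroup.lift (fun i => Multiplicative.ofAdd (if i = j then (1 : ℤ) else 0)) w).toAdd

/-- The matrices `w_i(X_1, …, X_k)`. -/
def values {k n r p : ℕ} (w : Fin r → FreeGroup (Fin k)) (X : Fin k → GL (Fin n) (ZMod p)) :
    Fin r → Matrix (Fin n) (Fin n) (ZMod p) :=
  fun i => (FreeGroup.lift X (w i) : GL (Fin n) (ZMod p))

/-- The invertible scalar matrix `c`. -/
def scalarGL (n : ℕ) {p : ℕ} (c : (ZMod p)ˣ) : GL (Fin n) (ZMod p) :=
  Units.map (Matrix.scalar (Fin n) : ZMod p →+* Matrix (Fin n) (Fin n) (ZMod p)).toMonoidHom c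

/-- **Record prime gaps at the entries of words in matrices, and at forms on cones.** -/
theorem result (ε : ℝ) (hε : 0 < ε) (hε1 : ε ≤ 1) :
    (∀ (r m D : ℕ) (η : ℝ), 1 ≤ m → 1 ≤ D → 0 < η →
      ∃ κ : ℝ, 0 < κ ∧ ∃ δ : ℝ, 0 < δ ∧ ∃ P₀ : ℝ, ∀ (p : ℕ) [Fact p.Prime], P₀ ≤ p →
      ∀ (ι : Type) (s : Finset ι) (act : (ZMod p)ˣ → ι → ι) (v : ι → Fin r → ZMod p)
        (d : Fin r → ℤ), s.Nonempty → (∀ t, Set.BijOn (act t) s s) →
      (∀ j, d j ≠ 0 ∧ |d j| ≤ D) →
      (∀ t, ∀ x ∈ s, ∀ j, v (act t x) j = ((t ^ (d j) : (ZMod p)ˣ) : ZMod p) * v x j) →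
      (∀ h : Fin r → ZMod p, h ≠ 0 → (∀ i j, h i ≠ 0 → h j ≠ 0 → d i = d j) →
        ((s.filter (fun x => ∑ j, h j * v x j = 0)).card : ℝ) ≤ s.card * (p : ℝ) ^ (-η)) →
      ∀ (T : (Fin r → ZMod p) →ₗ[ZMod p] (Fin m → ZMod p)) (C : Fin m → ZMod p),
      Function.Surjective T → ManyCentres κ ε δ p s (fun x => T (v x) + C)) ∧
    (∀ (n k r m : ℕ), 1 ≤ n → 1 ≤ m → ∀ w : Fin r → FreeGroup (Fin k),
      (∀ i, exponents (w i) ≠ 0) → (Function.Injective fun i => exponents (w i)) →
      ∃ κ : ℝ, 0 < κ ∧ ∃ δ : ℝ, 0 < δ ∧ ∃ P₀ : ℝ, ∀ (p : ℕ) [Fact p.Prime], P₀ ≤ p →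
      ∀ (T : (Fin r → Matrix (Fin n) (Fin n) (ZMod p)) →ₗ[ZMod p] (Fin m → ZMod p))
        (C : Fin m → ZMod p), Function.Surjective T →
      ManyCentres κ ε δ p (univ : Finset (Fin k → GL (Fin n) (ZMod p)))
        (fun X => T (values w X) + C)) ∧
    (∀ (n k r m : ℕ), 1 ≤ n → 1 ≤ m → ∀ w : Fin r → FreeGroup (Fin k),
      (∀ i, exponents (w i) ≠ 0) → (Function.Injective fun i => exponents (w i)) →
      ∃ κ : ℝ, 0 < κ ∧ ∃ δ : ℝ, 0 < δ ∧ ∃ P₀ : ℝ, ∀ (p : ℕ) [Fact p.Prime], P₀ ≤ p →
      ∀ S : Finset (Fin k → GL (Fin n) (ZMod p)),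
      (∀ X ∈ S, ∀ c : Fin k → (ZMod p)ˣ, (fun i => scalarGL n (c i) * X i) ∈ S) →
      (p : ℝ) ^ (((k * n ^ 2 : ℕ) : ℝ) - 1 + ε) ≤ S.card →
      ∀ (T : (Fin r → Matrix (Fin n) (Fin n) (ZMod p)) →ₗ[ZMod p] (Fin m → ZMod p))
        (C : Fin m → ZMod p), Function.Surjective T →
      ManyCentres κ ε δ p S (fun X => T (values w X) + C)) ∧
    (∀ N r m D : ℕ, 1 ≤ m →
      ∃ κ : ℝ, 0 < κ ∧ ∃ δ : ℝ, 0 < δ ∧ ∃ P₀ : ℝ, ∀ (p : ℕ) [Fact p.Prime], P₀ ≤ p →
      ∀ S : Finset (Fin N → ZMod p), (∀ x ∈ S, ∀ t : ZMod p, t ≠ 0 → t • x ∈ S) →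
      (p : ℝ) ^ ((N : ℝ) - 1 + ε) ≤ S.card →
      ∀ (F : Fin r → MvPolynomial (Fin N) (ZMod p)) (e : Fin r → ℕ),
      (∀ j, (F j).IsHomogeneous (e j) ∧ 1 ≤ e j ∧ e j ≤ D) → LinearIndependent (ZMod p) F →
      ∀ (T : (Fin r → ZMod p) →ₗ[ZMod p] (Fin m → ZMod p)) (C : Fin m → ZMod p),
      Function.Surjective T →
      ManyCentres κ ε δ p S (fun x => T (fun j => MvPolynomial.eval x (F j)) + C)) := by
  refine ⟨fun r m D η hm hD hη => ?_, fun n k r m hn hm w h0 h1 => ?_,
    fun n k r m hn hm w h0 h1 => ?_, fun N r m D hm => ?_⟩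
  · exact Pool.Agent.J4.H53.WM.abs (J := Fin r) m D hm hD η ε hη hε hε1
  · exact Pool.Agent.J4.H53.WM.words n k r m hn hm w h0 h1 ε hε hε1
  · exact Pool.Agent.J4.H53.WM.wordsSet n k r m hn hm w h0 h1 ε hε hε1
  · exact Pool.Agent.J4.H53.WM.forms N r m D hm ε hε hε1

end Pool.Agent.Results.MP_b0c12c_nt.WordsInMatrices
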